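import Mathlib
set_option autoImplicit false

/-!
# Expectations for independent trials

`bin q a f` is the expectation of `f` at the number of successes in `a` independent trials with success
probability `q`. Moments, a lower bound for the mean deviation from `a / 2`, and an improvement of
Markov's inequality at the middle.
-/

namespace Pool.Agent.R617.VC

/-- the expectation of `f` at the number of successes of `a` trials with success probability `q` -/
noncomputable def bin (q : ℝ) : ℕ → (ℕ → ℝ) → ℝ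
  | 0, f => f 0
  | a + 1, f => q * bin q a (fun y => f (y + 1)) + (1 - q) * bin q a f

variable {q : ℝ}

theorem bin_add (a : ℕ) (f g : ℕ → ℝ) : bin q a (fun y => f y + g y) = bin q a f + bin q a g := by
  induction a generalizing f g with
  | zero => rfl
  | succ a ih =>
    rw [bin, bin, bin, ih, ih]
    ring

theorem bin_smul (a : ℕ) (c : ℝ) (f : ℕ → ℝ) : bin q a (fun y => c * f y) = c * bin q a f := by
  induction a generalizing f with
  | zero => rfl
  | succ a ih =>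
    rw [bin, bin, ih, ih]
    ring

theorem bin_const (a : ℕ) (c : ℝ) : bin q a (fun _ => c) = c := by
  induction a with
  | zero => rfl
  | succ a ih =>
    rw [bin, ih]
    ring

theorem bin_mono (h0 : 0 ≤ q) (h1 : q ≤ 1) (a : ℕ) (f g : ℕ → ℝ) (h : ∀ y ≤ a, f y ≤ g y) :
    bin q a f ≤ bin q a g := by
  induction a generalizing f g with
  | zero => exact h 0 le_rfl
  | succ a ih =>
    rw [bin, bin]
    exact add_le_add
      (mul_le_mul_of_nonneg_left (ih _ _ fun y hy => h (y + 1) (by omega)) h0)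
      (mul_le_mul_of_nonneg_left (ih _ _ fun y hy => h y (by omega)) (by linarith))

/-- the size-biased law -/
theorem bin_mul (a : ℕ) (g : ℕ → ℝ) :
    bin q (a + 1) (fun y => (y : ℝ) * g y) = (a + 1) * q * bin q a (fun y => g (y + 1)) := by
  induction a generalizing g with
  | zero =>
    simp only [bin]
    push_cast
    ring
  | succ a ih =>
    have h1 : bin q (a + 1) (fun y => ((y + 1 : ℕ) : ℝ) * g (y + 1)) =
        bin q (a + 1) (fun y => (y : ℝ) * g (y + 1)) + bin q (a + 1) (fun y => g (y + 1)) := by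
      rw [← bin_add]
      congr 1
      funext y
      push_cast
      ring
    have h2 : bin q (a + 1 + 1) (fun y => (y : ℝ) * g y) =
        q * bin q (a + 1) (fun y => ((y + 1 : ℕ) : ℝ) * g (y + 1)) +
          (1 - q) * bin q (a + 1) (fun y => (y : ℝ) * g y) := rfl
    have h3 : bin q (a + 1) (fun y => g (y + 1)) =
        q * bin q a (fun y => g (y + 1 + 1)) + (1 - q) * bin q a (fun y => g (y + 1)) := rfl
    rw [h2, h1, ih (fun y => g (y + 1)), ih g]
    push_cast
    rw [h3]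
    ring

/-- the factorial moments -/
theorem bin_choose (a T : ℕ) :
    bin q a (fun y => (y.choose T : ℝ)) = (a.choose T : ℝ) * q ^ T := by
  induction a generalizing T with
  | zero =>
    cases T with
    | zero => simp [bin]
    | succ T => simp [bin]
  | succ a ih =>
    cases T with
    | zero => simp [bin_const]
    | succ T =>
      have h1 : (fun y : ℕ => (((y + 1).choose (T + 1) : ℕ) : ℝ)) =
          fun y : ℕ => (y.choose T : ℝ) + (y.choose (T + 1) : ℝ) := by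
        funext y
        rw [Nat.choose_succ_succ]
        push_cast
        rfl
      rw [bin, h1, bin_add, ih, ih, Nat.choose_succ_succ]
      push_cast
      ring

theorem bin_tail (h0 : 0 ≤ q) (h1 : q ≤ 1) (a T : ℕ) :
    bin q a (fun y => if T ≤ y then 1 else 0) ≤ (a * q) ^ T := by
  calc bin q a (fun y => if T ≤ y then 1 else 0) ≤ bin q a (fun y => (y.choose T : ℝ)) := by
        refine bin_mono h0 h1 a _ _ fun y _ => ?_
        split_ifs with h
        · exact_mod_cast Nat.choose_pos h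
        · exact Nat.cast_nonneg _
    _ = (a.choose T : ℝ) * q ^ T := bin_choose a T
    _ ≤ (a : ℝ) ^ T * q ^ T := by
        refine mul_le_mul_of_nonneg_right ?_ (by positivity)
        exact_mod_cast Nat.choose_le_pow a T
    _ = _ := by rw [mul_pow]

/-- the moments about `a / 2` -/
theorem moments (a : ℕ) (μ : ℝ) (hμ : μ = 1 / 2 - q) :
    bin q a (fun y => ((a : ℝ) / 2 - y)) = a * μ ∧
    bin q a (fun y => ((a : ℝ) / 2 - y) ^ 2) = a / 4 + a * (a - 1) * μ ^ 2 ∧
    bin q a (fun y => ((a : ℝ) / 2 - y) ^ 3) =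
      a * (a - 1) * (a - 2) * μ ^ 3 + 3 / 4 * a * (a - 1) * μ + a * μ / 4 ∧
    bin q a (fun y => ((a : ℝ) / 2 - y) ^ 4) =
      a / 16 + a * (a - 1) * μ ^ 2 + 3 * a * (a - 1) / 16 +
        3 / 2 * a * (a - 1) * (a - 2) * μ ^ 2 + a * (a - 1) * (a - 2) * (a - 3) * μ ^ 4 := by
  have hq : q = 1 / 2 - μ := by linarith
  induction a with
  | zero => simp [bin]
  | succ a ih =>
    obtain ⟨i1, i2, i3, i4⟩ := ih
    -- one more trial
    have e1 : ∀ k : ℕ, bin q (a + 1) (fun y => (((a + 1 : ℕ) : ℝ) / 2 - y) ^ k) =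
        q * bin q a (fun y => ((a : ℝ) / 2 - y - 1 / 2) ^ k) +
          (1 - q) * bin q a (fun y => ((a : ℝ) / 2 - y + 1 / 2) ^ k) := by
      intro k
      rw [bin]
      congr 2
      · congr 1
        funext y
        congr 1
        push_cast
        ring
      · congr 1
        funext y
        congr 1
        push_cast
        ring
    have c0 := bin_const (q := q) a
    have s1 : ∀ c : ℝ, bin q a (fun y => ((a : ℝ) / 2 - y + c) ^ 1) =
        bin q a (fun y => ((a : ℝ) / 2 - y)) + c := by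
      intro c
      conv_rhs => rw [← c0 c, ← bin_add]
      congr 1
      funext y
      ring
    have s2 : ∀ c : ℝ, bin q a (fun y => ((a : ℝ) / 2 - y + c) ^ 2) =
        bin q a (fun y => ((a : ℝ) / 2 - y) ^ 2) +
          (2 * c) * bin q a (fun y => ((a : ℝ) / 2 - y)) + c ^ 2 := by
      intro c
      conv_rhs => rw [← c0 (c ^ 2), ← bin_smul, ← bin_add, ← bin_add]
      congr 1
      funext y
      ring
    have s3 : ∀ c : ℝ, bin q a (fun y => ((a : ℝ) / 2 - y + c) ^ 3) =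
        bin q a (fun y => ((a : ℝ) / 2 - y) ^ 3) +
          (3 * c) * bin q a (fun y => ((a : ℝ) / 2 - y) ^ 2) +
          (3 * c ^ 2) * bin q a (fun y => ((a : ℝ) / 2 - y)) + c ^ 3 := by
      intro c
      conv_rhs => rw [← c0 (c ^ 3), ← bin_smul, ← bin_smul, ← bin_add, ← bin_add, ← bin_add]
      congr 1
      funext y
      ring
    have s4 : ∀ c : ℝ, bin q a (fun y => ((a : ℝ) / 2 - y + c) ^ 4) =
        bin q a (fun y => ((a : ℝ) / 2 - y) ^ 4) +
          (4 * c) * bin q a (fun y => ((a : ℝ) / 2 - y) ^ 3) +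
          (6 * c ^ 2) * bin q a (fun y => ((a : ℝ) / 2 - y) ^ 2) +
          (4 * c ^ 3) * bin q a (fun y => ((a : ℝ) / 2 - y)) + c ^ 4 := by
      intro c
      conv_rhs => rw [← c0 (c ^ 4), ← bin_smul, ← bin_smul, ← bin_smul, ← bin_add, ← bin_add,
        ← bin_add, ← bin_add]
      congr 1
      funext y
      ring
    have m1 : ∀ k : ℕ, bin q a (fun y => ((a : ℝ) / 2 - y - 1 / 2) ^ k) =
        bin q a (fun y => ((a : ℝ) / 2 - y + (-(1 / 2))) ^ k) := fun k => by
      simp only [sub_eq_add_neg]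
    refine ⟨?_, ?_, ?_, ?_⟩
    · have := e1 1
      rw [m1, s1, s1, i1] at this
      simp only [pow_one] at this
      rw [this, hq]
      push_cast
      ring
    · rw [e1 2, m1, s2, s2, i1, i2, hq]
      push_cast
      ring
    · rw [e1 3, m1, s3, s3, i1, i2, i3, hq]
      push_cast
      ring
    · rw [e1 4, m1, s4, s4, i1, i2, i3, i4, hq]
      push_cast
      ring

/-- the mean deviation from `a / 2` is at least `√a / 4` -/
theorem mean_dev (h0 : 0 ≤ q) (h1 : q ≤ 1) {a : ℕ} (ha : 16 ≤ a) :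
    Real.sqrt a / 4 ≤ bin q a (fun y => |(a : ℝ) / 2 - y|) := by
  obtain ⟨μ, hμ⟩ : ∃ μ : ℝ, μ = 1 / 2 - q := ⟨_, rfl⟩
  obtain ⟨-, m2, -, m4⟩ := moments a μ hμ
  have haR : (16 : ℝ) ≤ a := by exact_mod_cast ha
  obtain ⟨T, hT⟩ : ∃ T : ℝ, T = (a : ℝ) / 4 + (a : ℝ) ^ 2 * μ ^ 2 := ⟨_, rfl⟩
  have hT0 : 0 < T := by rw [hT]; positivity
  have hm4 : bin q a (fun y => ((a : ℝ) / 2 - y) ^ 4) ≤ 3 * T ^ 2 := by
    rw [m4, hT]
    have k1 : (a : ℝ) * (a - 1) * (a - 2) * (a - 3) * μ ^ 4 ≤ 3 * (a : ℝ) ^ 4 * μ ^ 4 := by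
      refine mul_le_mul_of_nonneg_right ?_ (by positivity)
      have p1 : (a : ℝ) - 1 ≤ a := by linarith
      have p2 : (a : ℝ) * (a - 1) ≤ a * a := by nlinarith
      have p3 : (a : ℝ) * (a - 1) * (a - 2) ≤ a * a * a :=
        mul_le_mul p2 (by linarith) (by linarith) (by positivity)
      have p4 : (a : ℝ) * (a - 1) * (a - 2) * (a - 3) ≤ a * a * a * a :=
        mul_le_mul p3 (by linarith) (by linarith) (by positivity)
      nlinarith [pow_pos (show (0 : ℝ) < a by linarith) 4]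
    have k2 : (a : ℝ) * (a - 1) * μ ^ 2 + 3 / 2 * a * (a - 1) * (a - 2) * μ ^ 2 ≤
        3 / 2 * (a : ℝ) ^ 3 * μ ^ 2 := by
      rw [← add_mul]
      refine mul_le_mul_of_nonneg_right ?_ (by positivity)
      nlinarith [mul_nonneg (show (0 : ℝ) ≤ a by linarith) (show (0 : ℝ) ≤ a by linarith)]
    nlinarith
  have hm2 : 15 / 16 * T ≤ bin q a (fun y => ((a : ℝ) / 2 - y) ^ 2) := by
    rw [m2, hT]
    have : (a : ℝ) * μ ^ 2 ≤ 1 / 16 * ((a : ℝ) ^ 2 * μ ^ 2) := by
      have : (a : ℝ) ≤ 1 / 16 * (a : ℝ) ^ 2 := by nlinarith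
      nlinarith [mul_le_mul_of_nonneg_right this (sq_nonneg μ)]
    nlinarith
  obtain ⟨r, hr⟩ : ∃ r : ℝ, r = Real.sqrt T := ⟨_, rfl⟩
  have hr0 : 0 < r := by rw [hr]; exact Real.sqrt_pos.2 hT0
  have hrT : r ^ 2 = T := by rw [hr]; exact Real.sq_sqrt hT0.le
  -- the pointwise bound
  have hpt : ∀ z : ℝ, 5 / 2 * (1 / (3 * r)) * z ^ 2 + (-(5 / 2 * (1 / (27 * r ^ 3)))) * z ^ 4 ≤
      |z| := by
    intro z
    have hz : z ^ 2 = |z| ^ 2 := (sq_abs z).symm
    have hz4 : z ^ 4 = |z| ^ 4 := by rw [show (4 : ℕ) = 2 * 2 by norm_num, pow_mul, pow_mul, hz]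
    rw [hz, hz4]
    obtain ⟨u, hu⟩ : ∃ u : ℝ, u = |z| / (3 * r) := ⟨_, rfl⟩
    have hu0 : 0 ≤ u := by rw [hu]; positivity
    have hzu : |z| = 3 * r * u := by rw [hu]; field_simp
    rw [hzu]
    have e : 5 / 2 * (1 / (3 * r)) * (3 * r * u) ^ 2 +
        (-(5 / 2 * (1 / (27 * r ^ 3)))) * (3 * r * u) ^ 4 = 3 * r * (5 / 2 * (u ^ 2 - u ^ 4)) := by
      field_simp
      ring
    rw [e]
    refine mul_le_mul_of_nonneg_left ?_ (by positivity)
    have h3 : u - u ^ 3 ≤ 2 / 5 := by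
      nlinarith [mul_nonneg hu0 (sq_nonneg (u - 4 / 7)), sq_nonneg (u - 4 / 7), hu0,
        sq_nonneg (u - 3 / 5)]
    have : u * (u - u ^ 3) ≤ u * (2 / 5) := mul_le_mul_of_nonneg_left h3 hu0
    nlinarith
  have hE := bin_mono h0 h1 a _ _ fun y _ => hpt ((a : ℝ) / 2 - y)
  rw [bin_add, bin_smul, bin_smul] at hE
  refine le_trans ?_ hE
  have hsa : Real.sqrt a ≤ 2 * r := by
    rw [Real.sqrt_le_left (by positivity)]
    have : (a : ℝ) ≤ 4 * T := by rw [hT]; nlinarith [sq_nonneg (a * μ)]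
    nlinarith
  have g1 : 5 / 2 * (1 / (3 * r)) * (15 / 16 * T) ≤
      5 / 2 * (1 / (3 * r)) * bin q a (fun y => ((a : ℝ) / 2 - y) ^ 2) :=
    mul_le_mul_of_nonneg_left hm2 (by positivity)
  have g2 : (5 / 2 * (1 / (27 * r ^ 3))) * bin q a (fun y => ((a : ℝ) / 2 - y) ^ 4) ≤
      (5 / 2 * (1 / (27 * r ^ 3))) * (3 * T ^ 2) :=
    mul_le_mul_of_nonneg_left hm4 (by positivity)
  have g3 : 5 / 2 * (1 / (3 * r)) * (15 / 16 * T) = 25 / 32 * r := by
    rw [← hrT]
    field_simp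
    ring
  have g4 : (5 / 2 * (1 / (27 * r ^ 3))) * (3 * T ^ 2) = 5 / 18 * r := by
    rw [← hrT]
    field_simp
    ring
  rw [g3] at g1
  rw [g4] at g2
  rw [neg_mul]
  linarith

/-- **Markov's inequality at the middle, improved.** -/
theorem middle (h0 : 0 ≤ q) (h1 : q ≤ 1) (t : ℕ) :
    bin q (9216 * (t + 1) ^ 2 + 1)
      (fun y => if 9216 * (t + 1) ^ 2 + 1 ≤ 2 * y + 3 * t then 1 else 0) ≤
      2 * q * (1 - 1 / (768 * (t + 1))) := by
  obtain ⟨a, ha⟩ : ∃ a : ℕ, a = 9216 * (t + 1) ^ 2 := ⟨_, rfl⟩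
  have haR : (a : ℝ) = 9216 * (t + 1) ^ 2 := by rw [ha]; push_cast; ring
  rw [← ha]
  have ht0 : (0 : ℝ) ≤ t := Nat.cast_nonneg t
  have ha16 : 16 ≤ a := by
    have := Nat.one_le_pow 2 (t + 1) (by omega)
    omega
  obtain ⟨n, hn⟩ : ∃ n : ℝ, n = (a : ℝ) + 1 := ⟨_, rfl⟩
  have hn0 : 0 < n := by rw [hn]; positivity
  have hnt : 42 * (t : ℝ) ≤ n := by rw [hn, haR]; nlinarith
  -- the pointwise inequality
  have hpt : ∀ y ≤ a + 1, (if a + 1 ≤ 2 * y + 3 * t then (1 : ℝ) else 0) ≤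
      ((1 + 12 * t / n) * (2 / n)) * ((y : ℝ) * 1) +
        (-(2 / n ^ 2)) * ((y : ℝ) * |n / 2 - y|) := by
    intro y hy
    have hyR : (y : ℝ) ≤ n := by rw [hn]; exact_mod_cast hy
    have hy0 : (0 : ℝ) ≤ y := Nat.cast_nonneg y
    have habs : |n / 2 - y| ≤ n / 2 := by rw [abs_le]; constructor <;> linarith
    have e : ((1 + 12 * t / n) * (2 / n)) * ((y : ℝ) * 1) + (-(2 / n ^ 2)) * ((y : ℝ) * |n / 2 - y|)
        = (2 * y) / n ^ 3 * ((n + 12 * t) * n - n * |n / 2 - y|) := by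
      field_simp
      ring
    rw [e]
    split_ifs with h
    · have hR : n ≤ 2 * y + 3 * t := by rw [hn]; exact_mod_cast h
      rw [div_mul_eq_mul_div, le_div_iff₀ (by positivity)]
      have e3 : 1 * n ^ 3 = n * (n * n) := by ring
      have e4 : 2 * (y : ℝ) * ((n + 12 * t) * n - n * |n / 2 - y|) =
          n * (2 * y * (n + 12 * t - |n / 2 - y|)) := by ring
      rw [e3, e4]
      refine mul_le_mul_of_nonneg_left ?_ hn0.le
      rcases le_total (n / 2) y with h2 | h2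
      · rw [abs_of_nonpos (by linarith)]
        nlinarith [mul_nonneg ht0 hy0]
      · rw [abs_of_nonneg (by linarith)]
        nlinarith [mul_nonneg ht0 hy0, mul_nonneg ht0 ht0]
    · have h5 : 0 ≤ (n + 12 * t) * n - n * |n / 2 - y| := by nlinarith
      exact mul_nonneg (by positivity) h5
  have hE := bin_mono h0 h1 (a + 1) _ _ hpt
  rw [bin_add, bin_smul, bin_smul, bin_mul a (fun _ => 1), bin_const,
    bin_mul a (fun y => |n / 2 - y|)] at hE
  refine hE.trans ?_
  -- the mean deviation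
  have hdev := mean_dev h0 h1 ha16
  have hs : Real.sqrt a = 96 * (t + 1) := by
    rw [haR, show (9216 * ((t : ℝ) + 1) ^ 2) = (96 * (t + 1)) ^ 2 by ring,
      Real.sqrt_sq (by positivity)]
  rw [hs] at hdev
  have hdev2 : 24 * ((t : ℝ) + 1) - 1 / 2 ≤ bin q a (fun y => |n / 2 - ((y + 1 : ℕ) : ℝ)|) := by
    have h2 : bin q a (fun y => |(a : ℝ) / 2 - y| + (-(1 / 2))) ≤
        bin q a (fun y => |n / 2 - ((y + 1 : ℕ) : ℝ)|) := by
      refine bin_mono h0 h1 a _ _ fun y _ => ?_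
      rw [hn]
      push_cast
      have h3 : |(a : ℝ) / 2 - y| ≤ |((a : ℝ) + 1) / 2 - (y + 1)| + |(1 : ℝ) / 2| := by
        have := abs_add_le (((a : ℝ) + 1) / 2 - (y + 1)) (1 / 2)
        rwa [show ((a : ℝ) + 1) / 2 - (y + 1) + 1 / 2 = (a : ℝ) / 2 - y by ring] at this
      rw [abs_of_pos (show (0 : ℝ) < 1 / 2 by norm_num)] at h3
      linarith
    rw [bin_add, bin_const] at h2
    linarith
  obtain ⟨D, hD⟩ : ∃ D : ℝ, D = bin q a (fun y => |n / 2 - ((y + 1 : ℕ) : ℝ)|) := ⟨_, rfl⟩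
  rw [← hD] at hdev2 ⊢
  have e5 : (1 + 12 * (t : ℝ) / n) * (2 / n) * (((a : ℝ) + 1) * q * 1) +
      -(2 / n ^ 2) * (((a : ℝ) + 1) * q * D) = 2 * q * (1 - (D - 12 * t) / n) := by
    rw [← hn]
    field_simp
    ring
  rw [e5]
  refine mul_le_mul_of_nonneg_left ?_ (by positivity)
  have h6 : 1 / (768 * ((t : ℝ) + 1)) ≤ (D - 12 * t) / n := by
    rw [div_le_div_iff₀ (by positivity) hn0, hn, haR]
    nlinarith
  linarith

end Pool.Agent.R617.VC
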