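import Pool.Agent.R617.VC.Star
import Pool.Agent.R900.AC.Gap
set_option autoImplicit false

/-!
# Constant-depth reductions from parity to weighted vertex cover: the parameters
-/

namespace Pool.Agent.R617.VC

open Finset DomAC0 H568R2 Pool.Agent.TH163.AC3
open scoped Classical

/-- `T` is a vertex cover of the graph with the present vertices `ver` and the edges `edge` -/
def Covers {V : Type} (ver : V → Bool) (edge : V → V → Bool) (T : Finset V) : Prop :=
  ∀ u v, u ≠ v → ver u = true → ver v = true → edge u v = true → u ∈ T ∨ v ∈ T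

/-- the weight of the present vertices of `T` -/
noncomputable def weight {V : Type} (w : V → ℝ) (ver : V → Bool) (T : Finset V) : ℝ :=
  ∑ u ∈ T.filter (fun u => ver u = true), w u

theorem core {N : ℕ} (hN : 0 < N) (C : Circuit (Fin N)) {V : Type} [Fintype V] (w : V → ℝ)
    (hw : ∀ u, 0 ≤ w u) {b : ℕ} (ver : V → Fin N ⊕ Fin C.size)
    (edge : V → V → Fin N ⊕ Fin C.size) (thr : Fin b → Fin N ⊕ Fin C.size)
    (val : (Fin b → Bool) → ℝ) (hval : ∀ x, 0 < val fun j => C.nodeVal x (thr j)) (h : ℕ)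
    (hver : ∀ u, C.nodeDepth (ver u) ≤ h) (hedge : ∀ u v, C.nodeDepth (edge u v) ≤ h)
    (hthr : ∀ j, C.nodeDepth (thr j) ≤ h) {ρ : ℝ} (hρ0 : 0 ≤ ρ)
    (hyes : ∀ x : Fin N → Bool, ¬ Odd (univ.filter fun i => x i = true).card →
      ∃ T : Finset V, Covers (fun u => C.nodeVal x (ver u)) (fun u v => C.nodeVal x (edge u v)) T ∧
        weight w (fun u => C.nodeVal x (ver u)) T ≤ val fun j => C.nodeVal x (thr j))
    (hno : ∀ x : Fin N → Bool, Odd (univ.filter fun i => x i = true).card →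
      ∀ T : Finset V, Covers (fun u => C.nodeVal x (ver u)) (fun u v => C.nodeVal x (edge u v)) T →
        ρ * (val fun j => C.nodeVal x (thr j)) ≤ weight w (fun u => C.nodeVal x (ver u)) T)
    {s : ℕ} (hs : 1 ≤ s) (hcond : h * C.size * (24 * s) ^ h ≤ 2 ^ s)
    (hb : 8 * (24 * s) ^ h * (b * s) ≤ N) (t : ℕ) :
    (1 - (N + C.size) * ((9216 * (t + 1) ^ 2 + 1) * s * (8 * (24 * s) ^ h) / N : ℝ) ^ (t + 1)) * ρ ≤
      2 * (1 - 1 / (768 * (t + 1))) := by
  obtain ⟨r, hr, hst⟩ := Y601.SSE.exists_restr C (by simpa using hN) hs h hcond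
  rw [Fintype.card_fin] at hst
  obtain ⟨J, hJ⟩ : ∃ J : Finset (Fin N), J = univ.filter fun i => r i = none := ⟨_, rfl⟩
  rw [← hJ] at hst
  have hNR : (0 : ℝ) < N := by exact_mod_cast hN
  have hs0 : (1 : ℝ) ≤ s := by exact_mod_cast hs
  have hJpos : 0 < J.card := by
    by_contra hcon
    have : J.card = 0 := by omega
    rw [this] at hst
    simp at hst
    omega
  obtain ⟨i₀, hi₀⟩ := card_pos.1 hJpos
  have hnone : ∀ i ∈ J, r i = none := fun i hi => by rw [hJ, mem_filter] at hi; exact hi.2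
  -- an odd input
  obtain ⟨x, hx⟩ : ∃ x : Fin N → Bool, Odd (univ.filter fun i => ov r x i = true).card := by
    by_cases h0 : Odd (univ.filter fun i => ov r (fun _ => false) i = true).card
    · exact ⟨_, h0⟩
    · refine ⟨Y601.SSE.flip i₀ fun _ => false, ?_⟩
      rw [Y601.SSE.ov_flip r i₀ (hnone _ hi₀)]
      exact (Y601.SSE.odd_flip i₀ _).2 h0
  obtain ⟨z, hz⟩ : ∃ z, z = ov r x := ⟨_, rfl⟩
  rw [← hz] at hx
  -- the sensitive variables of a node
  have hsens : ∀ v : Fin N ⊕ Fin C.size, C.nodeDepth v ≤ h →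
      (J.filter fun i => C.nodeVal (Y601.SSE.flip i z) v ≠ C.nodeVal z v).card ≤ s := by
    intro v hv
    have h1 := Y601.SSE.sens_le (node_dt C hs hr v hv) J x
    refine le_trans (card_le_card fun i hi => ?_) h1
    rw [mem_filter] at hi ⊢
    refine ⟨hi.1, ?_⟩
    unfold rs
    rw [Y601.SSE.ov_flip r i (hnone i hi.1), ← hz]
    exact hi.2
  -- the neighbours with the same threshold
  obtain ⟨J', hJ'⟩ : ∃ J' : Finset (Fin N), J' = J.filter fun i =>
    ∀ j, C.nodeVal (Y601.SSE.flip i z) (thr j) = C.nodeVal z (thr j) := ⟨_, rfl⟩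
  have hJJ : J.card ≤ J'.card + b * s := by
    have h1 : J ⊆ J' ∪ (univ : Finset (Fin b)).biUnion fun j =>
        J.filter fun i => C.nodeVal (Y601.SSE.flip i z) (thr j) ≠ C.nodeVal z (thr j) := by
      intro i hi
      rw [mem_union]
      by_cases h2 : i ∈ J'
      · exact Or.inl h2
      · right
        rw [hJ', mem_filter, not_and] at h2
        have h3 := h2 hi
        push Not at h3
        obtain ⟨j, hj⟩ := h3
        rw [mem_biUnion]
        exact ⟨j, mem_univ j, mem_filter.2 ⟨hi, hj⟩⟩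
    refine (card_le_card h1).trans ((card_union_le _ _).trans (Nat.add_le_add_left ?_ _))
    refine card_biUnion_le.trans ?_
    refine (sum_le_card_nsmul _ _ s fun j _ => hsens (thr j) (hthr j)).trans ?_
    rw [card_univ, Fintype.card_fin, smul_eq_mul]
  have hJ'card : (N : ℝ) ≤ 8 * (24 * s) ^ h * J'.card := by
    have h1 : (8 * (24 * (s : ℝ)) ^ h) * (b * s) ≤ N := by exact_mod_cast hb
    have h2 : (J.card : ℝ) ≤ J'.card + b * s := by exact_mod_cast hJJ
    have h3 := mul_le_mul_of_nonneg_left h2 (show (0 : ℝ) ≤ 8 * (24 * s) ^ h by positivity)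
    nlinarith
  have hJ'pos : 0 < J'.card := by
    by_contra hcon
    have : J'.card = 0 := by omega
    rw [this] at hJ'card
    simp at hJ'card
    omega
  obtain ⟨i₁, hi₁⟩ := card_pos.1 hJ'pos
  have : Nonempty {i // i ∈ J'} := ⟨⟨i₁, hi₁⟩⟩
  have hJ'iff : ∀ i, i ∈ J' → i ∈ J ∧
      ∀ j, C.nodeVal (Y601.SSE.flip i z) (thr j) = C.nodeVal z (thr j) := fun i hi => by
    rw [hJ', mem_filter] at hi
    exact hi
  have hJ'mem : ∀ i : {i // i ∈ J'}, i.1 ∈ J ∧
      ∀ j, C.nodeVal (Y601.SSE.flip i.1 z) (thr j) = C.nodeVal z (thr j) := by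
    intro i
    exact hJ'iff i.1 i.2
  have hcard' : (Fintype.card {i // i ∈ J'} : ℝ) = J'.card := by rw [Fintype.card_coe]
  -- the covers of the neighbours
  have heven : ∀ i : {i // i ∈ J'},
      ¬ Odd (univ.filter fun j => Y601.SSE.flip i.1 z j = true).card := fun i => by
    rw [Y601.SSE.odd_flip]
    exact not_not.2 hx
  choose T hT1 hT2 using fun i => hyes _ (heven i)
  have hΩ : (Fintype.card {v : Fin N ⊕ Fin C.size // C.nodeDepth v ≤ h} : ℝ) ≤ N + C.size := by
    have h1 := Fintype.card_subtype_le fun v : Fin N ⊕ Fin C.size => C.nodeDepth v ≤ h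
    rw [Fintype.card_sum, Fintype.card_fin, Fintype.card_fin] at h1
    exact_mod_cast h1
  have hstar := star (J := {i // i ∈ J'}) (Ω := {v : Fin N ⊕ Fin C.size // C.nodeDepth v ≤ h})
    w hw (κ := val fun j => C.nodeVal z (thr j)) (ρ := ρ) (hval z) hρ0
    (fun u => C.nodeVal z (ver u) = true)
    (fun i u => C.nodeVal (Y601.SSE.flip i.1 z) (ver u) = true)
    (fun u v => C.nodeVal z (edge u v) = true)
    (fun i u v => C.nodeVal (Y601.SSE.flip i.1 z) (edge u v) = true)
    (fun ω => univ.filter fun i => C.nodeVal (Y601.SSE.flip i.1 z) ω.1 ≠ C.nodeVal z ω.1) s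
    (fun ω => by
      refine le_trans ?_ (hsens ω.1 ω.2)
      rw [← card_map (Function.Embedding.subtype _)]
      refine card_le_card fun i hi => ?_
      rw [mem_map] at hi
      obtain ⟨j, hj, rfl⟩ := hi
      rw [mem_filter] at hj ⊢
      exact ⟨(hJ'mem j).1, hj.2⟩)
    (fun u => ⟨⟨ver u, hver u⟩, fun i hi => by
      simp only [mem_filter, mem_univ, true_and, not_not] at hi
      rw [hi]⟩)
    (fun u v => ⟨⟨edge u v, hedge u v⟩, fun i hi => by
      simp only [mem_filter, mem_univ, true_and, not_not] at hi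
      rw [hi]⟩)
    T (fun i u v huv h1 h2 h3 => hT1 i u v huv h1 h2 h3)
    (fun i => by
      have h1 := hT2 i
      have h2 : (fun j => C.nodeVal (Y601.SSE.flip i.1 z) (thr j)) =
          fun j => C.nodeVal z (thr j) := funext (hJ'mem i).2
      rw [h2] at h1
      unfold weight at h1
      convert h1)
    (fun T' hT' => by
      have h1 := hno z hx T' fun u v huv h1 h2 h3 => hT' u v huv h1 h2 h3
      unfold weight at h1
      convert h1) t
  refine le_trans ?_ hstar
  refine mul_le_mul_of_nonneg_right ?_ hρ0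
  refine sub_le_sub_left ?_ 1
  rw [hcard']
  have hJ'R : (0 : ℝ) < J'.card := by exact_mod_cast hJ'pos
  refine mul_le_mul hΩ (pow_le_pow_left₀ (by positivity) ?_ _) (by positivity) (by positivity)
  rw [div_le_div_iff₀ hJ'R hNR]
  calc (9216 * ((t : ℝ) + 1) ^ 2 + 1) * s * N ≤
        (9216 * ((t : ℝ) + 1) ^ 2 + 1) * s * (8 * (24 * s) ^ h * J'.card) :=
        mul_le_mul_of_nonneg_left hJ'card (by positivity)
    _ = _ := by ring

end Pool.Agent.R617.VC
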