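import Pool.Agent.R617.VC.Core
set_option autoImplicit false

/-!
# Constant-depth reductions from parity to weighted vertex cover on graphs of bounded degree
-/

namespace Pool.Agent.R617.VC

open Finset DomAC0 H568R2 Pool.Agent.TH163.AC3
open scoped Classical

/-- the edges of the graph with the present vertices `ver` and the edges `edge` -/
noncomputable def edges {V : Type} [Fintype V] (ver : V → Bool) (edge : V → V → Bool) :
    Finset (V × V) :=
  univ.filter fun e => e.1 ≠ e.2 ∧ ver e.1 = true ∧ ver e.2 = true ∧ edge e.1 e.2 = true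

theorem weight_nonneg {V : Type} (w : V → ℝ) (hw : ∀ u, 0 ≤ w u) (ver : V → Bool)
    (T : Finset V) : 0 ≤ weight w ver T := sum_nonneg fun u _ => hw u

/-- the smaller weight of an end -/
noncomputable def low {V : Type} (w : V → ℝ) (e : V × V) : V := if w e.1 ≤ w e.2 then e.1 else e.2

theorem low_le {V : Type} (w : V → ℝ) (e : V × V) : w (low w e) ≤ w e.1 ∧ w (low w e) ≤ w e.2 := by
  unfold low
  split_ifs with h
  · exact ⟨le_rfl, h⟩
  · exact ⟨(not_le.1 h).le, le_rfl⟩

theorem low_mem {V : Type} (w : V → ℝ) (e : V × V) : low w e = e.1 ∨ low w e = e.2 := by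
  unfold low
  split_ifs with h
  · exact Or.inl rfl
  · exact Or.inr rfl

/-- the edges are light compared with a cover -/
theorem sum_low {V : Type} [Fintype V] (w : V → ℝ) (hw : ∀ u, 0 ≤ w u) (ver : V → Bool)
    (edge : V → V → Bool) {D : ℕ}
    (hdeg : ∀ u, ((edges ver edge).filter fun e => e.1 = u ∨ e.2 = u).card ≤ D) (T : Finset V)
    (hT : Covers ver edge T) :
    ∑ e ∈ edges ver edge, w (low w e) ≤ D * weight w ver T := by
  have h1 : ∀ e ∈ edges ver edge, w (low w e) ≤
      ∑ u ∈ T.filter (fun u => ver u = true), if e.1 = u ∨ e.2 = u then w u else 0 := by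
    intro e he
    unfold edges at he
    rw [mem_filter] at he
    obtain ⟨-, h2, h3, h4, h5⟩ := he
    rcases hT e.1 e.2 h2 h3 h4 h5 with h | h
    · refine le_trans ?_ (single_le_sum (f := fun u => if e.1 = u ∨ e.2 = u then w u else 0)
        (fun u _ => by split_ifs; exacts [hw u, le_rfl]) (mem_filter.2 ⟨h, h3⟩))
      rw [if_pos (Or.inl rfl)]
      exact (low_le w e).1
    · refine le_trans ?_ (single_le_sum (f := fun u => if e.1 = u ∨ e.2 = u then w u else 0)
        (fun u _ => by split_ifs; exacts [hw u, le_rfl]) (mem_filter.2 ⟨h, h4⟩))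
      rw [if_pos (Or.inr rfl)]
      exact (low_le w e).2
  refine (sum_le_sum h1).trans ?_
  rw [sum_comm]
  unfold weight
  rw [mul_sum]
  refine sum_le_sum fun u _ => ?_
  rw [← sum_filter, sum_const, nsmul_eq_mul]
  exact mul_le_mul_of_nonneg_right (by exact_mod_cast hdeg u) (hw u)

theorem deg_core {N : ℕ} (hN : 0 < N) (C : Circuit (Fin N)) {V : Type} [Fintype V] (w : V → ℝ)
    (hw : ∀ u, 0 ≤ w u) {b : ℕ} (ver : V → Fin N ⊕ Fin C.size)
    (edge : V → V → Fin N ⊕ Fin C.size) (thr : Fin b → Fin N ⊕ Fin C.size)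
    (val : (Fin b → Bool) → ℝ) (hval : ∀ x, 0 < val fun j => C.nodeVal x (thr j)) (h : ℕ)
    (hver : ∀ u, C.nodeDepth (ver u) ≤ h) (hedge : ∀ u v, C.nodeDepth (edge u v) ≤ h)
    (hthr : ∀ j, C.nodeDepth (thr j) ≤ h) {ρ : ℝ} (hρ0 : 1 < ρ) {D : ℕ}
    (hyes : ∀ x : Fin N → Bool, ¬ Odd (univ.filter fun i => x i = true).card →
      ∃ T : Finset V, Covers (fun u => C.nodeVal x (ver u)) (fun u v => C.nodeVal x (edge u v)) T ∧
        weight w (fun u => C.nodeVal x (ver u)) T ≤ val fun j => C.nodeVal x (thr j))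
    (hdeg : ∀ x : Fin N → Bool, Odd (univ.filter fun i => x i = true).card → ∀ u,
      ((edges (fun u => C.nodeVal x (ver u)) (fun u v => C.nodeVal x (edge u v))).filter
        fun e => e.1 = u ∨ e.2 = u).card ≤ D)
    (hno : ∀ x : Fin N → Bool, Odd (univ.filter fun i => x i = true).card →
      ∀ T : Finset V, Covers (fun u => C.nodeVal x (ver u)) (fun u v => C.nodeVal x (edge u v)) T →
        ρ * (val fun j => C.nodeVal x (thr j)) ≤ weight w (fun u => C.nodeVal x (ver u)) T)
    {s : ℕ} (hs : 1 ≤ s) (hcond : h * C.size * (24 * s) ^ h ≤ 2 ^ s) :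
    (ρ - 1) * N ≤ (24 * s) ^ (h + 1) * (ρ * (D + b)) := by
  have hs0' : (1 : ℝ) ≤ s := by exact_mod_cast hs
  by_cases hb : 8 * (24 * s) ^ h * (b * s) ≤ N
  swap
  · push Not at hb
    have h1 : (N : ℝ) ≤ 8 * (24 * s) ^ h * (b * s) := by exact_mod_cast hb.le
    have h2 : (8 : ℝ) * (24 * s) ^ h * (b * s) ≤ (24 * s) ^ (h + 1) * b := by
      rw [pow_succ]
      have : (0 : ℝ) ≤ (24 * s) ^ h * (b * s) := by positivity
      nlinarith
    have h3 : (24 * (s : ℝ)) ^ (h + 1) * b ≤ (24 * s) ^ (h + 1) * (D + b) := by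
      refine mul_le_mul_of_nonneg_left ?_ (by positivity)
      have : (0 : ℝ) ≤ D := Nat.cast_nonneg D
      linarith
    have hN0 : (0 : ℝ) ≤ N := Nat.cast_nonneg N
    calc (ρ - 1) * N ≤ ρ * N := mul_le_mul_of_nonneg_right (by linarith) hN0
      _ ≤ ρ * ((24 * s) ^ (h + 1) * (D + b)) :=
        mul_le_mul_of_nonneg_left (h1.trans (h2.trans h3)) (by linarith)
      _ = _ := by ring
  obtain ⟨r, hr, hst⟩ := Y601.SSE.exists_restr C (by simpa using hN) hs h hcond
  rw [Fintype.card_fin] at hst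
  obtain ⟨J, hJ⟩ : ∃ J : Finset (Fin N), J = univ.filter fun i => r i = none := ⟨_, rfl⟩
  rw [← hJ] at hst
  have hNR : (0 : ℝ) < N := by exact_mod_cast hN
  have hs0 : (1 : ℝ) ≤ s := by exact_mod_cast hs
  have hJpos : 0 < J.card := by
    by_contra hcon
    have : J.card = 0 := by omega
    rw [this] at hst
    simp at hst
    omega
  obtain ⟨i₀, hi₀⟩ := card_pos.1 hJpos
  have hnone : ∀ i ∈ J, r i = none := fun i hi => by rw [hJ, mem_filter] at hi; exact hi.2
  -- an odd input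
  obtain ⟨x, hx⟩ : ∃ x : Fin N → Bool, Odd (univ.filter fun i => ov r x i = true).card := by
    by_cases h0 : Odd (univ.filter fun i => ov r (fun _ => false) i = true).card
    · exact ⟨_, h0⟩
    · refine ⟨Y601.SSE.flip i₀ fun _ => false, ?_⟩
      rw [Y601.SSE.ov_flip r i₀ (hnone _ hi₀)]
      exact (Y601.SSE.odd_flip i₀ _).2 h0
  obtain ⟨z, hz⟩ : ∃ z, z = ov r x := ⟨_, rfl⟩
  rw [← hz] at hx
  -- the sensitive variables of a node
  have hsens : ∀ v : Fin N ⊕ Fin C.size, C.nodeDepth v ≤ h →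
      (J.filter fun i => C.nodeVal (Y601.SSE.flip i z) v ≠ C.nodeVal z v).card ≤ s := by
    intro v hv
    have h1 := Y601.SSE.sens_le (node_dt C hs hr v hv) J x
    refine le_trans (card_le_card fun i hi => ?_) h1
    rw [mem_filter] at hi ⊢
    refine ⟨hi.1, ?_⟩
    unfold rs
    rw [Y601.SSE.ov_flip r i (hnone i hi.1), ← hz]
    exact hi.2
  -- the neighbours with the same threshold
  obtain ⟨J', hJ'⟩ : ∃ J' : Finset (Fin N), J' = J.filter fun i =>
    ∀ j, C.nodeVal (Y601.SSE.flip i z) (thr j) = C.nodeVal z (thr j) := ⟨_, rfl⟩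
  have hJJ : J.card ≤ J'.card + b * s := by
    have h1 : J ⊆ J' ∪ (univ : Finset (Fin b)).biUnion fun j =>
        J.filter fun i => C.nodeVal (Y601.SSE.flip i z) (thr j) ≠ C.nodeVal z (thr j) := by
      intro i hi
      rw [mem_union]
      by_cases h2 : i ∈ J'
      · exact Or.inl h2
      · right
        rw [hJ', mem_filter, not_and] at h2
        have h3 := h2 hi
        push Not at h3
        obtain ⟨j, hj⟩ := h3
        rw [mem_biUnion]
        exact ⟨j, mem_univ j, mem_filter.2 ⟨hi, hj⟩⟩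
    refine (card_le_card h1).trans ((card_union_le _ _).trans (Nat.add_le_add_left ?_ _))
    refine card_biUnion_le.trans ?_
    refine (sum_le_card_nsmul _ _ s fun j _ => hsens (thr j) (hthr j)).trans ?_
    rw [card_univ, Fintype.card_fin, smul_eq_mul]
  have hJ'card : (N : ℝ) ≤ 8 * (24 * s) ^ h * J'.card := by
    have h1 : (8 * (24 * (s : ℝ)) ^ h) * (b * s) ≤ N := by exact_mod_cast hb
    have h2 : (J.card : ℝ) ≤ J'.card + b * s := by exact_mod_cast hJJ
    have h3 := mul_le_mul_of_nonneg_left h2 (show (0 : ℝ) ≤ 8 * (24 * s) ^ h by positivity)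
    nlinarith
  have hJ'pos : 0 < J'.card := by
    by_contra hcon
    have : J'.card = 0 := by omega
    rw [this] at hJ'card
    simp at hJ'card
    omega
  obtain ⟨i₁, hi₁⟩ := card_pos.1 hJ'pos
  have : Nonempty {i // i ∈ J'} := ⟨⟨i₁, hi₁⟩⟩
  have hJ'iff : ∀ i, i ∈ J' → i ∈ J ∧
      ∀ j, C.nodeVal (Y601.SSE.flip i z) (thr j) = C.nodeVal z (thr j) := fun i hi => by
    rw [hJ', mem_filter] at hi
    exact hi
  have hJ'mem : ∀ i : {i // i ∈ J'}, i.1 ∈ J ∧
      ∀ j, C.nodeVal (Y601.SSE.flip i.1 z) (thr j) = C.nodeVal z (thr j) := by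
    intro i
    exact hJ'iff i.1 i.2
  have hcard' : (Fintype.card {i // i ∈ J'} : ℝ) = J'.card := by rw [Fintype.card_coe]
  -- the covers of the neighbours
  have heven : ∀ i : {i // i ∈ J'},
      ¬ Odd (univ.filter fun j => Y601.SSE.flip i.1 z j = true).card := fun i => by
    rw [Y601.SSE.odd_flip]
    exact not_not.2 hx
  choose T hT1 hT2 using fun i => hyes _ (heven i)
  -- a cover of minimal weight
  obtain ⟨T₀, hT₀, hmin⟩ := exists_min_image
    ((univ : Finset (Finset V)).filter fun T => Covers (fun u => C.nodeVal z (ver u))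
      (fun u v => C.nodeVal z (edge u v)) T)
    (fun T => weight w (fun u => C.nodeVal z (ver u)) T)
    ⟨univ, mem_filter.2 ⟨mem_univ _, fun u v _ _ _ _ => Or.inl (mem_univ u)⟩⟩
  rw [mem_filter] at hT₀
  obtain ⟨W, hW⟩ : ∃ W : ℝ, W = weight w (fun u => C.nodeVal z (ver u)) T₀ := ⟨_, rfl⟩
  obtain ⟨κ, hκ⟩ : ∃ κ : ℝ, κ = val fun j => C.nodeVal z (thr j) := ⟨_, rfl⟩
  have hκ0 : 0 < κ := by rw [hκ]; exact hval z
  have hWκ : ρ * κ ≤ W := by rw [hW, hκ]; exact hno z hx T₀ hT₀.2
  have hW0 : 0 < W := lt_of_lt_of_le (by positivity) hWκ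
  obtain ⟨E, hE⟩ : ∃ E : Finset (V × V),
    E = edges (fun u => C.nodeVal z (ver u)) (fun u v => C.nodeVal z (edge u v)) := ⟨_, rfl⟩
  have hlow : ∑ e ∈ E, w (low w e) ≤ D * W := by
    rw [hE, hW]
    exact sum_low w hw _ _ (hdeg z hx) T₀ hT₀.2
  -- the edges which change
  obtain ⟨B, hB⟩ : ∃ B : {i // i ∈ J'} → Finset (V × V), B = fun i => E.filter fun e =>
    ¬ (C.nodeVal (Y601.SSE.flip i.1 z) (ver e.1) = C.nodeVal z (ver e.1) ∧
      C.nodeVal (Y601.SSE.flip i.1 z) (ver e.2) = C.nodeVal z (ver e.2) ∧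
      C.nodeVal (Y601.SSE.flip i.1 z) (edge e.1 e.2) = C.nodeVal z (edge e.1 e.2)) := ⟨_, rfl⟩
  have hBs : ∀ e ∈ E, ((univ : Finset {i // i ∈ J'}).filter fun i => e ∈ B i).card ≤ 3 * s := by
    intro e he
    have hv : ∀ v : Fin N ⊕ Fin C.size, C.nodeDepth v ≤ h →
        ((univ : Finset {i // i ∈ J'}).filter fun i =>
          C.nodeVal (Y601.SSE.flip i.1 z) v ≠ C.nodeVal z v).card ≤ s := by
      intro v hv
      refine le_trans ?_ (hsens v hv)
      rw [← card_map (Function.Embedding.subtype _)]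
      refine card_le_card fun i hi => ?_
      rw [mem_map] at hi
      obtain ⟨j, hj, rfl⟩ := hi
      rw [mem_filter] at hj ⊢
      exact ⟨(hJ'mem j).1, hj.2⟩
    have h1 : ((univ : Finset {i // i ∈ J'}).filter fun i => e ∈ B i) ⊆
        (((univ : Finset {i // i ∈ J'}).filter fun i =>
          C.nodeVal (Y601.SSE.flip i.1 z) (ver e.1) ≠ C.nodeVal z (ver e.1)) ∪
        ((univ : Finset {i // i ∈ J'}).filter fun i =>
          C.nodeVal (Y601.SSE.flip i.1 z) (ver e.2) ≠ C.nodeVal z (ver e.2))) ∪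
        ((univ : Finset {i // i ∈ J'}).filter fun i =>
          C.nodeVal (Y601.SSE.flip i.1 z) (edge e.1 e.2) ≠ C.nodeVal z (edge e.1 e.2)) := by
      intro i hi
      rw [mem_filter, hB] at hi
      simp only [mem_filter, mem_union, mem_univ, true_and] at hi ⊢
      tauto
    have h2 := hv _ (hver e.1)
    have h3 := hv _ (hver e.2)
    have h4 := hv _ (hedge e.1 e.2)
    have h5 := (card_le_card h1).trans ((card_union_le _ _).trans
      (Nat.add_le_add_right (card_union_le _ _) _))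
    omega
  -- covers of the instance of `z`
  have hcov : ∀ i : {i // i ∈ J'}, W ≤ κ + ∑ e ∈ B i, w (low w e) := by
    intro i
    have h1 := hmin ((T i).filter (fun u => C.nodeVal (Y601.SSE.flip i.1 z) (ver u) = true) ∪
      (B i).image (low w)) (by
        rw [mem_filter]
        refine ⟨mem_univ _, fun u v huv hu hv he => ?_⟩
        by_cases hB' : (u, v) ∈ B i
        · rcases low_mem w (u, v) with h | h
          · exact Or.inl (mem_union_right _ (mem_image.2 ⟨(u, v), hB', h⟩))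
          · exact Or.inr (mem_union_right _ (mem_image.2 ⟨(u, v), hB', h⟩))
        · have hEm : (u, v) ∈ E := by
            rw [hE]
            unfold edges
            rw [mem_filter]
            exact ⟨mem_univ _, huv, hu, hv, he⟩
          have hB2 : C.nodeVal (Y601.SSE.flip i.1 z) (ver u) = C.nodeVal z (ver u) ∧
              C.nodeVal (Y601.SSE.flip i.1 z) (ver v) = C.nodeVal z (ver v) ∧
              C.nodeVal (Y601.SSE.flip i.1 z) (edge u v) = C.nodeVal z (edge u v) := by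
            by_contra hcon
            exact hB' (by rw [hB]; exact mem_filter.2 ⟨hEm, hcon⟩)
          obtain ⟨c1, c2, c3⟩ := hB2
          have d1 : C.nodeVal (Y601.SSE.flip i.1 z) (ver u) = true := c1.trans hu
          have d2 : C.nodeVal (Y601.SSE.flip i.1 z) (ver v) = true := c2.trans hv
          have d3 : C.nodeVal (Y601.SSE.flip i.1 z) (edge u v) = true := c3.trans he
          rcases hT1 i u v huv d1 d2 d3 with h | h
          · exact Or.inl (mem_union_left _ (mem_filter.2 ⟨h, d1⟩))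
          · exact Or.inr (mem_union_left _ (mem_filter.2 ⟨h, d2⟩)))
    rw [← hW] at h1
    refine h1.trans ?_
    have h2 := hT2 i
    have h3 : (fun j => C.nodeVal (Y601.SSE.flip i.1 z) (thr j)) =
        fun j => C.nodeVal z (thr j) := funext (hJ'mem i).2
    rw [h3, ← hκ] at h2
    have h4 : weight w (fun u => C.nodeVal z (ver u))
        ((T i).filter (fun u => C.nodeVal (Y601.SSE.flip i.1 z) (ver u) = true) ∪
          (B i).image (low w)) ≤
        ∑ u ∈ (T i).filter (fun u => C.nodeVal (Y601.SSE.flip i.1 z) (ver u) = true) ∪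
          (B i).image (low w), w u :=
      sum_le_sum_of_subset_of_nonneg (filter_subset _ _) fun u _ _ => hw u
    refine h4.trans ?_
    have h5 : ∑ u ∈ (T i).filter (fun u => C.nodeVal (Y601.SSE.flip i.1 z) (ver u) = true) ∪
        (B i).image (low w), w u ≤
        ∑ u ∈ (T i).filter (fun u => C.nodeVal (Y601.SSE.flip i.1 z) (ver u) = true), w u +
        ∑ u ∈ (B i).image (low w), w u := by
      rw [← sum_union_inter]
      have : 0 ≤ ∑ u ∈ (T i).filter (fun u => C.nodeVal (Y601.SSE.flip i.1 z) (ver u) = true) ∩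
        (B i).image (low w), w u := sum_nonneg fun u _ => hw u
      linarith
    have h6 : ∑ u ∈ (B i).image (low w), w u ≤ ∑ e ∈ B i, w (low w e) :=
      sum_image_le_of_nonneg fun u _ => hw u
    have h7 : ∑ u ∈ (T i).filter (fun u => C.nodeVal (Y601.SSE.flip i.1 z) (ver u) = true), w u ≤
        κ := by
      refine le_trans (le_of_eq ?_) h2
      unfold weight
      congr!
    linarith
  have hsum := sum_le_sum fun i (_ : i ∈ (univ : Finset {i // i ∈ J'})) => hcov i
  rw [sum_const, card_univ, nsmul_eq_mul, sum_add_distrib, sum_const, card_univ,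
    nsmul_eq_mul] at hsum
  have hchg : ∑ i : {i // i ∈ J'}, ∑ e ∈ B i, w (low w e) ≤ 3 * s * (D * W) := by
    have h1 : ∀ i : {i // i ∈ J'}, ∑ e ∈ B i, w (low w e) =
        ∑ e ∈ E, if e ∈ B i then w (low w e) else 0 := by
      intro i
      rw [← sum_filter]
      refine sum_congr ?_ fun _ _ => rfl
      ext e
      rw [mem_filter]
      constructor
      · intro he
        refine ⟨?_, he⟩
        rw [hB] at he
        exact (mem_filter.1 he).1
      · exact fun he => he.2
    rw [sum_congr rfl fun i _ => h1 i, sum_comm]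
    have h2 : ∀ e ∈ E, ∑ i : {i // i ∈ J'}, (if e ∈ B i then w (low w e) else 0) ≤
        3 * s * w (low w e) := by
      intro e he
      rw [← sum_filter, sum_const, nsmul_eq_mul]
      refine mul_le_mul_of_nonneg_right ?_ (hw _)
      have := hBs e he
      exact_mod_cast this
    refine (sum_le_sum h2).trans ?_
    rw [← mul_sum]
    exact mul_le_mul_of_nonneg_left hlow (by positivity)
  rw [hcard'] at hsum
  have hJ'R : (0 : ℝ) < J'.card := by exact_mod_cast hJ'pos
  have hfin : (ρ - 1) * J'.card ≤ ρ * (3 * s * D) := by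
    have h1 : (J'.card : ℝ) * W ≤ J'.card * κ + 3 * s * (D * W) := by linarith
    have h2 : (J'.card : ℝ) * (ρ * κ) ≤ J'.card * W := mul_le_mul_of_nonneg_left hWκ hJ'R.le
    have hρp : 0 < ρ := by linarith
    have h3 : ((ρ - 1) * J'.card) * W ≤ (ρ * (3 * s * D)) * W := by
      have := mul_le_mul_of_nonneg_left h1 hρp.le
      nlinarith
    exact le_of_mul_le_mul_right h3 hW0
  have h40 : (0 : ℝ) ≤ (24 * s) ^ h := by positivity
  calc (ρ - 1) * N ≤ (ρ - 1) * (8 * (24 * s) ^ h * J'.card) :=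
        mul_le_mul_of_nonneg_left hJ'card (by linarith)
    _ = 8 * (24 * s) ^ h * ((ρ - 1) * J'.card) := by ring
    _ ≤ 8 * (24 * s) ^ h * (ρ * (3 * s * D)) :=
        mul_le_mul_of_nonneg_left hfin (by positivity)
    _ = (24 * s) ^ (h + 1) * (ρ * D) := by rw [pow_succ]; ring
    _ ≤ (24 * s) ^ (h + 1) * (ρ * (D + b)) := by
        refine mul_le_mul_of_nonneg_left ?_ (by positivity)
        refine mul_le_mul_of_nonneg_left ?_ (by linarith)
        have : (0 : ℝ) ≤ b := Nat.cast_nonneg b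
        linarith

/-- The choice of the depth of the decision trees (as in `Pool/Agent/R900/AC/Gap.lean`). -/
theorem param (h : ℕ) : ∃ X0 : ℝ, 0 < X0 ∧ ∀ (m : ℕ) (X : ℝ), X0 ≤ X →
    (∀ s : ℕ, 1 ≤ s → h * m * (24 * s) ^ h ≤ 2 ^ s → X ≤ (24 * s) ^ (h + 1)) →
    (2 : ℝ) ^ (X ^ (1 / (h + 1 : ℝ)) / 100) ≤ m := by
  obtain ⟨Y0, hY48, hY0⟩ := Y601.SSE.exists_large h
  refine ⟨Y0 ^ (h + 1), by positivity, ?_⟩
  intro m X hX hcore
  obtain ⟨Y, hYd⟩ : ∃ Y : ℝ, Y = X ^ (1 / (h + 1 : ℝ)) := ⟨_, rfl⟩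
  rw [← hYd]
  have hY00 : (0 : ℝ) ≤ Y0 := by linarith
  have hXpos' : 0 < X := lt_of_lt_of_le (by positivity) hX
  have hXpos : 0 ≤ X := hXpos'.le
  have hYX : Y ^ (h + 1) = X := by
    rw [hYd, ← Real.rpow_natCast, ← Real.rpow_mul hXpos]
    push_cast
    rw [one_div, inv_mul_cancel₀ (by positivity), Real.rpow_one]
  have hYn : 0 ≤ Y := by rw [hYd]; exact Real.rpow_nonneg hXpos _
  have hYY : Y0 ≤ Y := by
    by_contra hcon
    push Not at hcon
    have := pow_lt_pow_left₀ hcon hYn (Nat.succ_ne_zero h)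
    rw [Nat.succ_eq_add_one, hYX] at this
    linarith
  have hY := hY0 Y hYY
  by_contra hcon
  push Not at hcon
  obtain ⟨s, hs⟩ : ∃ s : ℕ, s = ⌈Y / 24⌉₊ - 1 := ⟨_, rfl⟩
  have hc1 : Y / 24 ≤ ⌈Y / 24⌉₊ := Nat.le_ceil _
  have hc2 : (⌈Y / 24⌉₊ : ℝ) < Y / 24 + 1 := Nat.ceil_lt_add_one (by positivity)
  have hc3 : 2 ≤ ⌈Y / 24⌉₊ := by
    have : (2 : ℝ) ≤ ⌈Y / 24⌉₊ := le_trans (by linarith) hc1
    exact_mod_cast this
  have hs1 : 1 ≤ s := by omega
  have hsr : (s : ℝ) = ⌈Y / 24⌉₊ - 1 := by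
    rw [hs, Nat.cast_sub (by omega), Nat.cast_one]
  have hs2 : 24 * (s : ℝ) < Y := by rw [hsr]; linarith
  have hs3 : Y / 24 - 1 ≤ s := by rw [hsr]; linarith
  have hlt : (24 * (s : ℝ)) ^ (h + 1) < X := by
    rw [← hYX]
    exact pow_lt_pow_left₀ hs2 (by positivity) (Nat.succ_ne_zero h)
  have hcond : h * m * (24 * s) ^ h ≤ 2 ^ s := by
    have h1 : ((h * m * (24 * s) ^ h : ℕ) : ℝ) ≤ ((2 ^ s : ℕ) : ℝ) := by
      push_cast
      calc (h : ℝ) * m * (24 * s) ^ h ≤ h * 2 ^ (Y / 100) * Y ^ h := by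
            apply mul_le_mul _ (pow_le_pow_left₀ (by positivity) hs2.le h) (by positivity)
              (by positivity)
            exact mul_le_mul_of_nonneg_left hcon.le (Nat.cast_nonneg _)
        _ = h * Y ^ h * 2 ^ (Y / 100) := by ring
        _ ≤ 2 ^ (Y / 24 - 1) := hY
        _ ≤ (2 : ℝ) ^ (s : ℝ) := Real.rpow_le_rpow_of_exponent_le (by norm_num) hs3
        _ = 2 ^ s := Real.rpow_natCast _ _
    exact_mod_cast h1
  have := hcore s hs1 hcond
  linarith

/-- **Constant-depth reductions from parity to vertex cover in graphs of bounded degree.** -/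
theorem deg_main (h : ℕ) : ∃ X₀ : ℝ, ∀ (N : ℕ) (C : Circuit (Fin N)) (V : Type) [Fintype V]
    (w : V → ℝ) (b : ℕ) (ver : V → Fin N ⊕ Fin C.size) (edge : V → V → Fin N ⊕ Fin C.size)
    (thr : Fin b → Fin N ⊕ Fin C.size) (val : (Fin b → Bool) → ℝ) (ρ : ℝ) (D : ℕ),
    (∀ u, 0 ≤ w u) → (∀ x, 0 < val fun j => C.nodeVal x (thr j)) → 1 < ρ →
    (∀ u, C.nodeDepth (ver u) ≤ h) → (∀ u v, C.nodeDepth (edge u v) ≤ h) →
    (∀ j, C.nodeDepth (thr j) ≤ h) →
    (∀ x : Fin N → Bool, ¬ Odd (univ.filter fun i => x i = true).card →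
      ∃ T : Finset V,
        Covers (fun u => C.nodeVal x (ver u)) (fun u v => C.nodeVal x (edge u v)) T ∧
        weight w (fun u => C.nodeVal x (ver u)) T ≤ val fun j => C.nodeVal x (thr j)) →
    (∀ x : Fin N → Bool, Odd (univ.filter fun i => x i = true).card → ∀ u,
      ((edges (fun u => C.nodeVal x (ver u)) (fun u v => C.nodeVal x (edge u v))).filter
        fun e => e.1 = u ∨ e.2 = u).card ≤ D) →
    (∀ x : Fin N → Bool, Odd (univ.filter fun i => x i = true).card → ∀ T : Finset V,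
      Covers (fun u => C.nodeVal x (ver u)) (fun u v => C.nodeVal x (edge u v)) T →
      ρ * (val fun j => C.nodeVal x (thr j)) ≤ weight w (fun u => C.nodeVal x (ver u)) T) →
    X₀ ≤ (ρ - 1) * N / (ρ * (D + b)) →
    (2 : ℝ) ^ (((ρ - 1) * N / (ρ * (D + b))) ^ (1 / (h + 1 : ℝ)) / 100) ≤ C.size := by
  obtain ⟨X₀, hX0, hX⟩ := param h
  refine ⟨X₀, ?_⟩
  intro N C V _ w b ver edge thr val ρ D hw hval hρ hver hedge hthr hyes hdeg hno hbig
  refine hX C.size _ hbig fun s hs hcond => ?_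
  have hpos : 0 < (ρ - 1) * N / (ρ * (D + b)) := lt_of_lt_of_le hX0 hbig
  have hN : 0 < N := by
    rcases Nat.eq_zero_or_pos N with h0 | h0
    · rw [h0] at hpos
      simp at hpos
    · exact h0
  have hDb : (0 : ℝ) < ρ * (D + b) := by
    have h1 : (0 : ℝ) ≤ ρ * (D + b) := mul_nonneg (by linarith) (by positivity)
    rcases h1.eq_or_lt with h0 | h0
    · rw [← h0, div_zero] at hpos
      exact absurd hpos (lt_irrefl _)
    · exact h0
  rw [div_le_iff₀ hDb]
  exact deg_core hN C w hw ver edge thr val hval h hver hedge hthr hρ hyes hdeg hno hs hcond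

end Pool.Agent.R617.VC
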