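import Pool.Agent.R617.VC.Core
set_option autoImplicit false

/-!
# Constant-depth reductions from parity to weighted vertex cover: ratio close to two
-/

namespace Pool.Agent.R617.VC

open Finset DomAC0

theorem exists_large (K k : ℕ) : ∃ S : ℕ, ∀ s : ℕ, S ≤ s → K * s ^ k ≤ 2 ^ s := by
  have h := tendsto_pow_const_div_const_pow_of_one_lt k (show (1 : ℝ) < 2 by norm_num)
  have h2 := h.const_mul (K : ℝ)
  rw [mul_zero] at h2
  have h3 := h2.eventually (gt_mem_nhds (show (0 : ℝ) < 1 by norm_num))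
  obtain ⟨S, hS⟩ := Filter.eventually_atTop.1 h3
  refine ⟨S, fun s hs => ?_⟩
  have h4 := hS s hs
  rw [← mul_div_assoc, div_lt_one (by positivity)] at h4
  exact_mod_cast h4.le

theorem exists_root (m N : ℕ) (hm : 1 ≤ m) (hN : 1 ≤ N) :
    ∃ s : ℕ, s ^ m ≤ N ∧ N < (s + 1) ^ m := by
  have hex : ∃ s : ℕ, N < (s + 1) ^ m := ⟨N, by
    calc N < N + 1 := Nat.lt_succ_self N
      _ = (N + 1) ^ 1 := (pow_one _).symm
      _ ≤ (N + 1) ^ m := Nat.pow_le_pow_right (by omega) hm⟩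
  classical
  refine ⟨Nat.find hex, ?_, Nat.find_spec hex⟩
  rcases Nat.eq_zero_or_pos (Nat.find hex) with h | h
  · rw [h, zero_pow (by omega)]
    omega
  · have h2 := Nat.find_min hex (m := Nat.find hex - 1) (by omega)
    rw [Nat.sub_add_cancel h] at h2
    omega

/-- **Constant-depth reductions from parity to vertex cover with a ratio close to two.** -/
theorem main (h : ℕ) (η : ℝ) (hη0 : 0 < η) (hη : η ≤ 1 / 4000) :
    ∃ N₀ : ℕ, ∀ N : ℕ, N₀ ≤ N → ∀ (C : Circuit (Fin N)) (V : Type) [Fintype V] (w : V → ℝ)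
      (b : ℕ) (ver : V → Fin N ⊕ Fin C.size) (edge : V → V → Fin N ⊕ Fin C.size)
      (thr : Fin b → Fin N ⊕ Fin C.size) (val : (Fin b → Bool) → ℝ),
      (∀ u, 0 ≤ w u) → (∀ x, 0 < val fun j => C.nodeVal x (thr j)) → b ^ 4 ≤ N →
      (∀ u, C.nodeDepth (ver u) ≤ h) → (∀ u v, C.nodeDepth (edge u v) ≤ h) →
      (∀ j, C.nodeDepth (thr j) ≤ h) →
      (∀ x : Fin N → Bool, ¬ Odd (univ.filter fun i => x i = true).card →
        ∃ T : Finset V,
          Covers (fun u => C.nodeVal x (ver u)) (fun u v => C.nodeVal x (edge u v)) T ∧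
          weight w (fun u => C.nodeVal x (ver u)) T ≤ val fun j => C.nodeVal x (thr j)) →
      (∀ x : Fin N → Bool, Odd (univ.filter fun i => x i = true).card → ∀ T : Finset V,
        Covers (fun u => C.nodeVal x (ver u)) (fun u v => C.nodeVal x (edge u v)) T →
        (2 - η) * (val fun j => C.nodeVal x (thr j)) ≤ weight w (fun u => C.nodeVal x (ver u)) T) →
      (N : ℝ) ^ (1 / (1000 * η)) ≤ C.size := by
  obtain ⟨T, hT⟩ : ∃ T : ℕ, T = ⌊1 / (400 * η)⌋₊ := ⟨_, rfl⟩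
  have hT1 : (T : ℝ) ≤ 1 / (400 * η) := by rw [hT]; exact Nat.floor_le (by positivity)
  have hT2 : 1 / (400 * η) < (T : ℝ) + 1 := by rw [hT]; exact Nat.lt_floor_add_one _
  have h10 : (10 : ℝ) ≤ 1 / (400 * η) := by
    rw [le_div_iff₀ (by positivity)]
    linarith
  have hTpos : 1 ≤ T := by
    have : (0 : ℝ) < T := by linarith
    exact_mod_cast this
  obtain ⟨t, ht⟩ : ∃ t, T = t + 1 := ⟨T - 1, by omega⟩
  obtain ⟨c, hc⟩ : ∃ c : ℝ, c = 1 / (1000 * η) := ⟨_, rfl⟩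
  have hc4 : 4 ≤ c := by
    rw [hc, le_div_iff₀ (by positivity)]
    linarith
  have hTc : c + 1 / 2 ≤ (T : ℝ) / 2 := by
    have e1 : 1 / (400 * η) = 5 / 2 * c := by rw [hc]; field_simp; norm_num
    rw [e1] at hT2
    linarith
  obtain ⟨D, hD⟩ : ∃ D : ℕ, D = ⌈c⌉₊ := ⟨_, rfl⟩
  have hcD : c ≤ D := by rw [hD]; exact Nat.le_ceil c
  obtain ⟨S₁, hS₁⟩ := exists_large (h * 2 ^ (4 * (h + 1) * D) * 24 ^ h) (4 * (h + 1) * D + h)
  obtain ⟨K₂, hK₂⟩ : ∃ K : ℕ, K = 8 * 24 ^ h * 2 ^ (h + 1) := ⟨_, rfl⟩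
  obtain ⟨K₃, hK₃⟩ : ∃ K : ℕ, K = (9216 * T ^ 2 + 1) * (8 * 24 ^ h) := ⟨_, rfl⟩
  obtain ⟨S₀, hS₀⟩ : ∃ S : ℕ, S = S₁ + K₂ + K₃ + 1 := ⟨_, rfl⟩
  refine ⟨S₀ ^ (4 * (h + 1)) + ⌈(96 / η) ^ 2⌉₊ + 1, ?_⟩
  intro N hN C V _ w b ver edge thr val hw hval hb hver hedge hthr hyes hno
  have hN1 : 1 ≤ N := by omega
  have hNR : (0 : ℝ) < N := by exact_mod_cast hN1
  have hNR1 : (1 : ℝ) ≤ N := by exact_mod_cast hN1
  rw [← hc]
  by_contra hcon
  push Not at hcon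
  obtain ⟨s, hs1, hs2⟩ := exists_root (4 * (h + 1)) N (by omega) hN1
  have hsS : S₀ ≤ s := by
    by_contra hlt
    have h1 : (s + 1) ^ (4 * (h + 1)) ≤ S₀ ^ (4 * (h + 1)) := Nat.pow_le_pow_left (by omega) _
    omega
  have hspos : 1 ≤ s := by omega
  have hs2' : N < (2 * s) ^ (4 * (h + 1)) :=
    lt_of_lt_of_le hs2 (Nat.pow_le_pow_left (by omega) _)
  -- the size
  have hsize : C.size ≤ N ^ D := by
    have h1 : (C.size : ℝ) ≤ (N : ℝ) ^ (D : ℝ) :=
      hcon.le.trans (Real.rpow_le_rpow_of_exponent_le hNR1 hcD)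
    rw [Real.rpow_natCast] at h1
    exact_mod_cast h1
  have hcond : h * C.size * (24 * s) ^ h ≤ 2 ^ s := by
    calc h * C.size * (24 * s) ^ h ≤ h * ((2 * s) ^ (4 * (h + 1))) ^ D * (24 * s) ^ h := by
          refine Nat.mul_le_mul_right _ (Nat.mul_le_mul_left _ (hsize.trans ?_))
          exact Nat.pow_le_pow_left hs2'.le D
      _ = h * 2 ^ (4 * (h + 1) * D) * 24 ^ h * s ^ (4 * (h + 1) * D + h) := by
          rw [← pow_mul, mul_pow, mul_pow, pow_add]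
          ring
      _ ≤ 2 ^ s := hS₁ s (by omega)
  have hb' : 8 * (24 * s) ^ h * (b * s) ≤ N := by
    have h1 : b ≤ (2 * s) ^ (h + 1) := by
      by_contra hlt
      push Not at hlt
      have h2 : ((2 * s) ^ (h + 1)) ^ 4 < b ^ 4 := Nat.pow_lt_pow_left hlt (by norm_num)
      rw [← pow_mul, mul_comm (h + 1) 4] at h2
      omega
    calc 8 * (24 * s) ^ h * (b * s) ≤ 8 * (24 * s) ^ h * ((2 * s) ^ (h + 1) * s) :=
          Nat.mul_le_mul_left _ (Nat.mul_le_mul_right _ h1)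
      _ = K₂ * s ^ (2 * (h + 1)) := by
          rw [hK₂, mul_pow, mul_pow, show 2 * (h + 1) = h + (h + 1) + 1 by ring, pow_add, pow_add]
          ring
      _ ≤ s ^ (2 * (h + 1)) * s ^ (2 * (h + 1)) := by
          refine Nat.mul_le_mul_right _ ?_
          calc K₂ ≤ s := by omega
            _ = s ^ 1 := (pow_one s).symm
            _ ≤ s ^ (2 * (h + 1)) := Nat.pow_le_pow_right hspos (by omega)
      _ = s ^ (4 * (h + 1)) := by rw [← pow_add]; congr 1; ring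
      _ ≤ N := hs1
  have hcore := core (ρ := 2 - η) (by omega) C w hw ver edge thr val hval h hver hedge hthr
    (by linarith) hyes hno hspos hcond hb' t
  have htT : ((t : ℝ) + 1) = T := by rw [ht]; push_cast; rfl
  rw [htT, ← ht] at hcore
  -- the small quantity
  obtain ⟨y, hy⟩ : ∃ y : ℝ, y = (N : ℝ) ^ (-(1 / 2) : ℝ) := ⟨_, rfl⟩
  have hy0 : 0 < y := by rw [hy]; exact Real.rpow_pos_of_pos hNR _
  have hyN : y ^ 2 * N = 1 := by
    rw [hy, ← Real.rpow_natCast, ← Real.rpow_mul hNR.le]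
    norm_num
    rw [Real.rpow_neg_one]
    field_simp
  have hx : (9216 * (T : ℝ) ^ 2 + 1) * s * (8 * (24 * s) ^ h) / N ≤ y := by
    have h1 : ((K₃ * s ^ (h + 1) : ℕ) : ℝ) ≤ ((s ^ (2 * (h + 1)) : ℕ) : ℝ) := by
      have h2 : K₃ ≤ s ^ (h + 1) := by
        calc K₃ ≤ s := by omega
          _ = s ^ 1 := (pow_one s).symm
          _ ≤ s ^ (h + 1) := Nat.pow_le_pow_right hspos (by omega)
      have h3 : K₃ * s ^ (h + 1) ≤ s ^ (2 * (h + 1)) := by
        calc K₃ * s ^ (h + 1) ≤ s ^ (h + 1) * s ^ (h + 1) := Nat.mul_le_mul_right _ h2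
          _ = s ^ (2 * (h + 1)) := by rw [← pow_add]; congr 1; ring
      exact_mod_cast h3
    have h4 : ((s ^ (2 * (h + 1)) : ℕ) : ℝ) ≤ y * N := by
      have h5 : (((s ^ (2 * (h + 1)) : ℕ) : ℝ)) ^ 2 ≤ (y * (N : ℝ)) ^ 2 := by
        have h6 : (y * (N : ℝ)) ^ 2 = (N : ℝ) := by
          have h66 : (y * (N : ℝ)) ^ 2 = (y ^ 2 * (N : ℝ)) * (N : ℝ) := by ring
          rw [h66, hyN, one_mul]
        rw [h6]
        have h7 : (s ^ (2 * (h + 1))) ^ 2 ≤ N := by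
          rw [← pow_mul, show 2 * (h + 1) * 2 = 4 * (h + 1) by ring]
          exact hs1
        exact_mod_cast h7
      exact (pow_le_pow_iff_left₀ (by positivity) (by positivity) (by norm_num)).1 h5
    rw [div_le_iff₀ hNR]
    refine le_trans ?_ (h1.trans h4)
    rw [hK₃]
    push_cast
    rw [mul_pow, pow_succ]
    apply le_of_eq
    ring
  have hx0 : 0 ≤ (9216 * (T : ℝ) ^ 2 + 1) * s * (8 * (24 * s) ^ h) / N := by positivity
  have hpow : ((9216 * (T : ℝ) ^ 2 + 1) * s * (8 * (24 * s) ^ h) / N) ^ T ≤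
      (N : ℝ) ^ (-((T : ℝ) / 2)) := by
    refine (pow_le_pow_left₀ hx0 hx T).trans_eq ?_
    rw [hy, ← Real.rpow_natCast, ← Real.rpow_mul hNR.le]
    congr 1
    ring
  have hpow0 : 0 ≤ ((9216 * (T : ℝ) ^ 2 + 1) * s * (8 * (24 * s) ^ h) / N) ^ T := by positivity
  obtain ⟨p, hp⟩ : ∃ p : ℝ, p = (N + C.size) *
    ((9216 * (T : ℝ) ^ 2 + 1) * s * (8 * (24 * s) ^ h) / N) ^ T := ⟨_, rfl⟩
  have hp0 : 0 ≤ p := by rw [hp]; positivity
  have hp2 : p ≤ 2 * y := by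
    have h1 : (N : ℝ) + C.size ≤ 2 * (N : ℝ) ^ c := by
      have h2 : (N : ℝ) ≤ (N : ℝ) ^ c := by
        calc (N : ℝ) = (N : ℝ) ^ (1 : ℝ) := (Real.rpow_one _).symm
          _ ≤ (N : ℝ) ^ c := Real.rpow_le_rpow_of_exponent_le hNR1 (by linarith)
      linarith
    calc p ≤ (2 * (N : ℝ) ^ c) * (N : ℝ) ^ (-((T : ℝ) / 2)) := by
          rw [hp]
          exact mul_le_mul h1 hpow hpow0 (by positivity)
      _ = 2 * (N : ℝ) ^ (c - (T : ℝ) / 2) := by
          rw [mul_assoc, ← Real.rpow_add hNR, ← sub_eq_add_neg]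
      _ ≤ 2 * (N : ℝ) ^ (-(1 / 2) : ℝ) := by
          refine mul_le_mul_of_nonneg_left ?_ (by norm_num)
          exact Real.rpow_le_rpow_of_exponent_le hNR1 (by linarith)
      _ = 2 * y := by rw [hy]
  rw [← hp] at hcore
  have hTR : (0 : ℝ) < T := by exact_mod_cast hTpos
  have h20 : η + η / 24 ≤ 2 * (1 / (768 * (T : ℝ))) := by
    have h21 : 400 * η * T ≤ 1 := by
      have := mul_le_mul_of_nonneg_left hT1 (show (0 : ℝ) ≤ 400 * η by positivity)
      rwa [mul_one_div_cancel (by positivity)] at this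
    have h22 : 2 * (1 / (768 * (T : ℝ))) = 1 / (384 * T) := by field_simp; norm_num
    rw [h22, le_div_iff₀ (by positivity)]
    nlinarith
  have h30 : η / 24 ≤ 2 * p := by nlinarith
  have h31 : η ≤ 96 * y := by linarith
  have h32 : (96 / η) ^ 2 < N := by
    have h33 : (96 / η) ^ 2 ≤ ⌈(96 / η) ^ 2⌉₊ := Nat.le_ceil _
    have h34 : ((⌈(96 / η) ^ 2⌉₊ : ℕ) : ℝ) < N := by
      have : ⌈(96 / η) ^ 2⌉₊ < N := by omega
      exact_mod_cast this
    linarith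
  have h35 : (96 : ℝ) ^ 2 < N * η ^ 2 := by
    rw [div_pow, div_lt_iff₀ (by positivity)] at h32
    exact h32
  have h36 : N * η ^ 2 ≤ N * (96 * y) ^ 2 := by
    refine mul_le_mul_of_nonneg_left ?_ hNR.le
    exact pow_le_pow_left₀ hη0.le h31 2
  have h37 : (N : ℝ) * (96 * y) ^ 2 = 96 ^ 2 := by
    calc (N : ℝ) * (96 * y) ^ 2 = 96 ^ 2 * (y ^ 2 * N) := by ring
      _ = 96 ^ 2 := by rw [hyN, mul_one]
  linarith

end Pool.Agent.R617.VC
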