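import Pool.Agent.R617.VC.Bin
set_option autoImplicit false

/-!
# Covers of the neighbours give a cover in the middle

`J` are the neighbours of an instance; every neighbour `i` has a vertex cover `T i` of cost at most `κ`,
and every bit of the instance changes for at most `s` of the neighbours. For a random sample of the
neighbours the vertices which lie in about half of the sampled covers form a cover; its mean cost is less
than `2 κ (1 - 1 / (768 (t + 1)))`.
-/

namespace Pool.Agent.R617.VC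

open Finset
open scoped Classical

/-- the number of the entries of `A` in `Q` -/
noncomputable def cnt {J : Type} {a : ℕ} (Q : Finset J) (A : Fin a → J) : ℕ :=
  ∑ j, if A j ∈ Q then 1 else 0

/-- the mean over all sequences is the expectation for independent trials -/
theorem mean_cnt {J : Type} [Fintype J] [Nonempty J] (Q : Finset J) (a : ℕ) (f : ℕ → ℝ) :
    ∑ A : Fin a → J, f (cnt Q A) =
      (Fintype.card J : ℝ) ^ a * bin ((Q.card : ℝ) / Fintype.card J) a f := by
  have hJ : (0 : ℝ) < Fintype.card J := by exact_mod_cast Fintype.card_pos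
  induction a generalizing f with
  | zero => simp [cnt, bin]
  | succ a ih =>
    have h1 : ∑ A : Fin (a + 1) → J, f (cnt Q A) =
        ∑ p : J × (Fin a → J), f ((if p.1 ∈ Q then 1 else 0) + cnt Q p.2) := by
      refine (Fintype.sum_equiv (Fin.consEquiv fun _ : Fin (a + 1) => J) _ _ fun p => ?_).symm
      unfold cnt
      rw [Fin.sum_univ_succ]
      simp [Fin.consEquiv]
    rw [h1, Fintype.sum_prod_type]
    have h2 : ∀ i : J, ∑ A : Fin a → J, f ((if i ∈ Q then 1 else 0) + cnt Q A) =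
        (Fintype.card J : ℝ) ^ a * bin ((Q.card : ℝ) / Fintype.card J) a f +
          (if i ∈ Q then 1 else 0) * ((Fintype.card J : ℝ) ^ a *
            (bin ((Q.card : ℝ) / Fintype.card J) a (fun y => f (y + 1)) -
              bin ((Q.card : ℝ) / Fintype.card J) a f)) := by
      intro i
      by_cases hi : i ∈ Q
      · simp only [hi, if_true]
        have := ih fun y => f (y + 1)
        simp only [add_comm 1] 
        rw [this]
        ring
      · simp only [hi, if_false, zero_add]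
        rw [ih f]
        ring
    rw [sum_congr rfl fun i _ => h2 i, sum_add_distrib, sum_const, ← sum_mul, card_univ,
      nsmul_eq_mul]
    have h3 : ∑ i : J, (if i ∈ Q then (1 : ℝ) else 0) = Q.card := by simp
    rw [h3, bin]
    obtain ⟨B, hB⟩ : ∃ B, B = bin ((Q.card : ℝ) / Fintype.card J) a f := ⟨_, rfl⟩
    obtain ⟨B', hB'⟩ : ∃ B', B' = bin ((Q.card : ℝ) / Fintype.card J) a (fun y => f (y + 1)) :=
      ⟨_, rfl⟩
    rw [← hB, ← hB', pow_succ]
    field_simp
    ring

/-- **The cover in the middle.** -/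
theorem star {J V Ω : Type} [Fintype J] [Nonempty J] [Fintype V] [Fintype Ω]
    (w : V → ℝ) (hw : ∀ u, 0 ≤ w u) {κ ρ : ℝ} (hκ : 0 < κ) (hρ : 0 ≤ ρ)
    (P₀ : V → Prop) (P : J → V → Prop) (E₀ : V → V → Prop) (E : J → V → V → Prop)
    (Ch : Ω → Finset J) (s : ℕ) (hCh : ∀ ω, (Ch ω).card ≤ s)
    (hP : ∀ u, ∃ ω, ∀ i, i ∉ Ch ω → (P i u ↔ P₀ u))
    (hE : ∀ u v, ∃ ω, ∀ i, i ∉ Ch ω → (E i u v ↔ E₀ u v))
    (T : J → Finset V) (hT : ∀ i u v, u ≠ v → P i u → P i v → E i u v → u ∈ T i ∨ v ∈ T i)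
    (hcost : ∀ i, ∑ u ∈ (T i).filter (P i), w u ≤ κ)
    (hno : ∀ T' : Finset V, (∀ u v, u ≠ v → P₀ u → P₀ v → E₀ u v → u ∈ T' ∨ v ∈ T') →
      ρ * κ ≤ ∑ u ∈ T'.filter P₀, w u) (t : ℕ) :
    (1 - Fintype.card Ω * ((9216 * (t + 1) ^ 2 + 1) * s / Fintype.card J : ℝ) ^ (t + 1)) * ρ ≤
      2 * (1 - 1 / (768 * (t + 1))) := by
  have hJ : (0 : ℝ) < Fintype.card J := by exact_mod_cast Fintype.card_pos
  obtain ⟨n, hn⟩ : ∃ n : ℕ, n = 9216 * (t + 1) ^ 2 + 1 := ⟨_, rfl⟩
  have hnR : (9216 * ((t : ℝ) + 1) ^ 2 + 1) = n := by rw [hn]; push_cast; ring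
  rw [hnR]
  -- the cover of a sequence
  obtain ⟨Q, hQ⟩ : ∃ Q : V → Finset J, Q = fun u => univ.filter fun i => P i u ∧ u ∈ T i :=
    ⟨_, rfl⟩
  obtain ⟨T', hT'⟩ : ∃ T' : (Fin n → J) → Finset V,
    T' = fun A => univ.filter fun u => n ≤ 2 * cnt (Q u) A + 3 * t := ⟨_, rfl⟩
  have hgood : ∀ A : Fin n → J, (∀ ω, cnt (Ch ω) A ≤ t) →
      ρ * κ ≤ ∑ u ∈ (T' A).filter P₀, w u := by
    intro A hA
    refine hno (T' A) fun u v huv hu hv he => ?_
    by_contra hcon
    rw [not_or, hT'] at hcon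
    simp only [mem_filter, mem_univ, true_and, not_le] at hcon
    obtain ⟨hu', hv'⟩ := hcon
    obtain ⟨ω₁, h₁⟩ := hP u
    obtain ⟨ω₂, h₂⟩ := hP v
    obtain ⟨ω₃, h₃⟩ := hE u v
    have key : n ≤ cnt (Ch ω₁) A + cnt (Ch ω₂) A + cnt (Ch ω₃) A + cnt (Q u) A + cnt (Q v) A := by
      have h4 : ∑ j : Fin n, 1 ≤ cnt (Ch ω₁) A + cnt (Ch ω₂) A + cnt (Ch ω₃) A + cnt (Q u) A +
          cnt (Q v) A := by
        unfold cnt
        rw [← sum_add_distrib, ← sum_add_distrib, ← sum_add_distrib, ← sum_add_distrib]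
        refine sum_le_sum fun j _ => ?_
        by_cases c1 : A j ∈ Ch ω₁
        · simp only [c1, if_true]; omega
        by_cases c2 : A j ∈ Ch ω₂
        · simp only [c2, if_true]; omega
        by_cases c3 : A j ∈ Ch ω₃
        · simp only [c3, if_true]; omega
        have p1 := (h₁ _ c1).2 hu
        have p2 := (h₂ _ c2).2 hv
        have p3 := (h₃ _ c3).2 he
        rcases hT (A j) u v huv p1 p2 p3 with h | h
        · have : A j ∈ Q u := by rw [hQ]; simp [p1, h]
          simp only [this, if_true]; omega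
        · have : A j ∈ Q v := by rw [hQ]; simp [p2, h]
          simp only [this, if_true]; omega
      simpa using h4
    have := hA ω₁
    have := hA ω₂
    have := hA ω₃
    omega
  -- the bad sequences
  obtain ⟨bad, hbad⟩ : ∃ bad : (Fin n → J) → ℝ,
    bad = fun A => ∑ ω : Ω, if t + 1 ≤ cnt (Ch ω) A then (1 : ℝ) else 0 := ⟨_, rfl⟩
  have hlow : ∀ A : Fin n → J, (1 - bad A) * (ρ * κ) ≤ ∑ u ∈ (T' A).filter P₀, w u := by
    intro A
    by_cases hA : ∀ ω, cnt (Ch ω) A ≤ t
    · have h1 : bad A = 0 := by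
        rw [hbad]
        refine sum_eq_zero fun ω _ => ?_
        rw [if_neg]
        have := hA ω
        omega
      rw [h1, sub_zero, one_mul]
      exact hgood A hA
    · push Not at hA
      obtain ⟨ω, hω⟩ := hA
      have h1 : 1 ≤ bad A := by
        rw [hbad]
        have := single_le_sum (f := fun ω : Ω => if t + 1 ≤ cnt (Ch ω) A then (1 : ℝ) else 0)
          (fun ω _ => by split_ifs <;> norm_num) (mem_univ ω)
        refine le_trans ?_ this
        rw [if_pos (by omega)]
      have h2 : (1 - bad A) * (ρ * κ) ≤ 0 :=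
        mul_nonpos_of_nonpos_of_nonneg (by linarith) (by positivity)
      exact h2.trans (sum_nonneg fun u _ => hw u)
  have hsum := sum_le_sum fun A (_ : A ∈ (univ : Finset (Fin n → J))) => hlow A
  rw [← sum_mul, sum_sub_distrib, sum_const, card_univ, nsmul_eq_mul, mul_one] at hsum
  have hcardF : (Fintype.card (Fin n → J) : ℝ) = (Fintype.card J : ℝ) ^ n := by
    rw [Fintype.card_fun, Fintype.card_fin]
    push_cast
    rfl
  rw [hcardF] at hsum
  have hpow : (0 : ℝ) < (Fintype.card J : ℝ) ^ n := by positivity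
  have hfrac : ∀ S : Finset J, 0 ≤ (S.card : ℝ) / Fintype.card J ∧
      (S.card : ℝ) / Fintype.card J ≤ 1 := fun S =>
    ⟨by positivity, by rw [div_le_one hJ]; exact_mod_cast card_le_univ S⟩
  have hb1 : ∑ A : Fin n → J, bad A ≤ (Fintype.card J : ℝ) ^ n *
      (Fintype.card Ω * (n * s / Fintype.card J : ℝ) ^ (t + 1)) := by
    rw [hbad, sum_comm]
    have h1 : ∀ ω : Ω, ∑ A : Fin n → J, (if t + 1 ≤ cnt (Ch ω) A then (1 : ℝ) else 0) ≤
        (Fintype.card J : ℝ) ^ n * (n * s / Fintype.card J : ℝ) ^ (t + 1) := by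
      intro ω
      rw [mean_cnt (Ch ω) n fun y => if t + 1 ≤ y then (1 : ℝ) else 0]
      refine mul_le_mul_of_nonneg_left ((bin_tail (hfrac _).1 (hfrac _).2 n (t + 1)).trans ?_)
        hpow.le
      refine pow_le_pow_left₀ (mul_nonneg (Nat.cast_nonneg _) (hfrac _).1) ?_ _
      rw [mul_div_assoc]
      have : ((Ch ω).card : ℝ) ≤ s := by exact_mod_cast hCh ω
      gcongr
    refine (sum_le_sum fun ω _ => h1 ω).trans_eq ?_
    rw [sum_const, card_univ, nsmul_eq_mul]
    ring
  -- the mean cost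
  have hup : ∑ A : Fin n → J, ∑ u ∈ (T' A).filter P₀, w u ≤
      (Fintype.card J : ℝ) ^ n * (2 * (1 - 1 / (768 * (t + 1))) * κ) := by
    have h1 : ∀ A : Fin n → J, ∑ u ∈ (T' A).filter P₀, w u ≤
        ∑ u : V, w u * (if n ≤ 2 * cnt (Q u) A + 3 * t then (1 : ℝ) else 0) := by
      intro A
      have h2 : ∑ u ∈ (T' A).filter P₀, w u ≤ ∑ u ∈ T' A, w u :=
        sum_le_sum_of_subset_of_nonneg (filter_subset _ _) fun u _ _ => hw u
      refine h2.trans_eq ?_
      rw [hT', sum_filter]
      refine sum_congr rfl fun u _ => ?_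
      split_ifs <;> simp
    refine (sum_le_sum fun A _ => h1 A).trans ?_
    rw [sum_comm]
    have h3 : ∀ u : V, ∑ A : Fin n → J, w u * (if n ≤ 2 * cnt (Q u) A + 3 * t then (1 : ℝ) else 0) ≤
        (Fintype.card J : ℝ) ^ n * (2 * (1 - 1 / (768 * (t + 1)))) *
          (w u * ((Q u).card / Fintype.card J)) := by
      intro u
      rw [← mul_sum, mean_cnt (Q u) n fun y => if n ≤ 2 * y + 3 * t then (1 : ℝ) else 0]
      have h4 := middle (hfrac (Q u)).1 (hfrac (Q u)).2 t
      rw [← hn] at h4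
      have h5 := mul_le_mul_of_nonneg_left h4 (mul_nonneg (hw u) hpow.le)
      calc _ = w u * (Fintype.card J : ℝ) ^ n * bin ((Q u).card / Fintype.card J) n
            (fun y => if n ≤ 2 * y + 3 * t then (1 : ℝ) else 0) := by ring
        _ ≤ _ := h5
        _ = _ := by ring
    refine (sum_le_sum fun u _ => h3 u).trans ?_
    rw [← mul_sum]
    have h6 : ∑ u : V, w u * ((Q u).card / Fintype.card J) ≤ κ := by
      have h7 : ∑ u : V, w u * ((Q u).card : ℝ) = ∑ i : J, ∑ u ∈ (T i).filter (P i), w u := by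
        have h8 : ∀ u : V, w u * ((Q u).card : ℝ) = ∑ i : J, if P i u ∧ u ∈ T i then w u else 0 := by
          intro u
          rw [hQ, card_filter]
          push_cast
          rw [mul_sum]
          refine sum_congr rfl fun i _ => ?_
          split_ifs <;> simp
        rw [sum_congr rfl fun u _ => h8 u, sum_comm]
        refine sum_congr rfl fun i _ => ?_
        rw [← sum_filter]
        refine sum_congr ?_ fun _ _ => rfl
        ext u
        simp [and_comm]
      have h9 : ∑ u : V, w u * ((Q u).card / Fintype.card J) =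
          (∑ u : V, w u * ((Q u).card : ℝ)) / Fintype.card J := by
        rw [sum_div]
        exact sum_congr rfl fun u _ => by ring
      rw [h9, h7, div_le_iff₀ hJ]
      refine (sum_le_sum fun i _ => hcost i).trans_eq ?_
      rw [sum_const, card_univ, nsmul_eq_mul]
      ring
    have h10 : (0 : ℝ) ≤ 1 - 1 / (768 * (t + 1)) := by
      have : 1 / (768 * ((t : ℝ) + 1)) ≤ 1 := by
        rw [div_le_one (by positivity)]
        have : (0 : ℝ) ≤ t := Nat.cast_nonneg t
        linarith
      linarith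
    calc _ ≤ (Fintype.card J : ℝ) ^ n * (2 * (1 - 1 / (768 * (t + 1)))) * κ :=
          mul_le_mul_of_nonneg_left h6 (mul_nonneg hpow.le (mul_nonneg (by norm_num) h10))
      _ = _ := by ring
  have hfin : (Fintype.card J : ℝ) ^ n * κ *
      ((1 - Fintype.card Ω * (n * s / Fintype.card J : ℝ) ^ (t + 1)) * ρ) ≤
      (Fintype.card J : ℝ) ^ n * κ * (2 * (1 - 1 / (768 * (t + 1)))) := by
    have h1 := hsum.trans hup
    have h2 : ((Fintype.card J : ℝ) ^ n - (Fintype.card J : ℝ) ^ n *
        (Fintype.card Ω * (n * s / Fintype.card J : ℝ) ^ (t + 1))) * (ρ * κ) ≤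
        ((Fintype.card J : ℝ) ^ n - ∑ A : Fin n → J, bad A) * (ρ * κ) :=
      mul_le_mul_of_nonneg_right (by linarith) (by positivity)
    calc _ = ((Fintype.card J : ℝ) ^ n - (Fintype.card J : ℝ) ^ n *
        (Fintype.card Ω * (n * s / Fintype.card J : ℝ) ^ (t + 1))) * (ρ * κ) := by ring
      _ ≤ _ := h2.trans h1
      _ = _ := by ring
  exact le_of_mul_le_mul_left hfin (by positivity)

end Pool.Agent.R617.VC
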